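import Pool.Agent.N658.FF.Stm

/-!
# Project FF (helper658): local implementation of the projections (helper711)
-/

set_option autoImplicit false
set_option linter.unusedSectionVars false

open scoped InnerProductSpace Classical

noncomputable section

namespace Pool.Agent.N711.FF

open Pool.Agent.N658.FF

section

variable {E : Type} [NormedAddCommGroup E] [InnerProductSpace ℂ E] [FiniteDimensional ℂ E]
variable {T : Type}

theorem mem_G {V : T → Submodule ℂ E} {A : Finset T} {w : E} : w ∈ G V A ↔ ∀ x ∈ A, w ∈ V x := by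
  simp [G, Submodule.mem_iInf]

theorem inner_pr (K : Submodule ℂ E) (a b : E) : ⟪pr K a, b⟫_ℂ = ⟪a, pr K b⟫_ℂ :=
  K.inner_starProjection_left_eq_right a b

/-- products of projections -/
def pp (V : T → Submodule ℂ E) (l : List T) : E →L[ℂ] E := (l.map fun x => pr (V x)).prod

theorem pp_nil (V : T → Submodule ℂ E) : pp V [] = 1 := rfl

theorem pp_cons (V : T → Submodule ℂ E) (x : T) (l : List T) :
    pp V (x :: l) = pr (V x) * pp V l := by
  unfold pp
  rw [List.map_cons, List.prod_cons]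

theorem pp_append (V : T → Submodule ℂ E) (l l' : List T) :
    pp V (l ++ l') = pp V l * pp V l' := by
  unfold pp
  rw [List.map_append, List.prod_append]

theorem pp_fix (V : T → Submodule ℂ E) (l : List T) (w : E) (h : ∀ x ∈ l, w ∈ V x) :
    pp V l w = w := by
  induction l with
  | nil => rfl
  | cons x l ih =>
    rw [pp_cons, mul_apply_eq_comp, ih fun y hy => h y (List.mem_cons_of_mem _ hy)]
    exact Submodule.starProjection_eq_self_iff.2 (h x List.mem_cons_self)

theorem pp_norm (V : T → Submodule ℂ E) (l : List T) (w : E) : ‖pp V l w‖ ≤ ‖w‖ := by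
  induction l with
  | nil => exact le_refl _
  | cons x l ih =>
    rw [pp_cons, mul_apply_eq_comp]
    exact ((V x).norm_starProjection_apply_le _).trans ih

theorem pp_perp (V : T → Submodule ℂ E) (A : Finset T) (l : List T) (h : ∀ x ∈ l, x ∈ A) (φ : E)
    (hφ : φ ∈ (G V A)ᗮ) : pp V l φ ∈ (G V A)ᗮ := by
  induction l with
  | nil => exact hφ
  | cons x l ih =>
    rw [pp_cons, mul_apply_eq_comp]
    have h1 := ih fun y hy => h y (List.mem_cons_of_mem _ hy)
    rw [Submodule.mem_orthogonal] at h1 ⊢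
    intro w hw
    rw [← inner_pr, Submodule.starProjection_eq_self_iff.2 (mem_G.1 hw x (h x List.mem_cons_self))]
    exact h1 w hw

theorem pp_comm (V : T → Submodule ℂ E) (l : List T) (q : E →L[ℂ] E)
    (h : ∀ x ∈ l, Commute (pr (V x)) q) : Commute (pp V l) q := by
  induction l with
  | nil => exact Commute.one_left q
  | cons x l ih =>
    rw [pp_cons]
    exact (h x List.mem_cons_self).mul_left (ih fun y hy => h y (List.mem_cons_of_mem _ hy))

end

section

variable {E : Type} [NormedAddCommGroup E] [InnerProductSpace ℂ E] [FiniteDimensional ℂ E]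
variable {T : Type} [Fintype T] {c : ℕ}

/-- the elements of `S` of colour `i` -/
def ls (col : T → Fin c) (S : Finset T) (i : ℕ) : List T :=
  (Finset.univ : Finset T).toList.filter fun x => decide (x ∈ S ∧ (col x).val = i)

theorem mem_ls {col : T → Fin c} {S : Finset T} {i : ℕ} {x : T} :
    x ∈ ls col S i ↔ x ∈ S ∧ (col x).val = i := by
  simp [ls]

theorem nodup_ls (col : T → Fin c) (S : Finset T) (i : ℕ) : (ls col S i).Nodup :=
  (Finset.nodup_toList _).filter _

/-- the first `j` layers -/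
def Ly (V : T → Submodule ℂ E) (col : T → Fin c) (S : Finset T) : ℕ → (E →L[ℂ] E)
  | 0 => 1
  | j + 1 => pp V (ls col S (j % c)) * Ly V col S j

variable (V : T → Submodule ℂ E) (col : T → Fin c) (S : Finset T)

theorem Ly_fix (j : ℕ) (w : E) (h : ∀ x ∈ S, w ∈ V x) : Ly V col S j w = w := by
  induction j with
  | zero => rfl
  | succ j ih =>
    unfold Ly
    rw [mul_apply_eq_comp, ih]
    exact pp_fix V _ w fun x hx => h x (mem_ls.1 hx).1

theorem Ly_norm (j : ℕ) (w : E) : ‖Ly V col S j w‖ ≤ ‖w‖ := by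
  induction j with
  | zero => exact le_refl _
  | succ j ih =>
    unfold Ly
    rw [mul_apply_eq_comp]
    exact (pp_norm V _ _).trans ih

theorem Ly_comm (j : ℕ) (q : E →L[ℂ] E) (h : ∀ x ∈ S, Commute (pr (V x)) q) :
    Commute (Ly V col S j) q := by
  induction j with
  | zero => exact Commute.one_left q
  | succ j ih =>
    unfold Ly
    exact (pp_comm V _ q fun x hx => h x (mem_ls.1 hx).1).mul_left ih

theorem Ly_add (n j : ℕ) : Ly V col S (j + n * c) = Ly V col S j * Ly V col S (n * c) := by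
  induction j with
  | zero =>
    rw [Nat.zero_add]
    exact (one_mul _).symm
  | succ j ih =>
    rw [show j + 1 + n * c = (j + n * c) + 1 by ring]
    conv_lhs => unfold Ly
    conv_rhs => unfold Ly
    rw [Nat.add_mul_mod_self_right, ih, mul_assoc]
    congr 2
    cases n * c <;> rfl

theorem pass : ∃ l : List T, l.Nodup ∧ (∀ x, x ∈ l ↔ x ∈ S) ∧ Ly V col S c = pp V l := by
  have h : ∀ j ≤ c, ∃ l : List T, l.Nodup ∧ (∀ x, x ∈ l ↔ x ∈ S ∧ (col x).val < j) ∧
      Ly V col S j = pp V l := by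
    intro j
    induction j with
    | zero =>
      intro _
      exact ⟨[], List.nodup_nil, fun x => by simp, rfl⟩
    | succ j ih =>
      intro hj
      obtain ⟨l, h1, h2, h3⟩ := ih (by omega)
      refine ⟨ls col S j ++ l, ?_, ?_, ?_⟩
      · refine (nodup_ls col S j).append h1 ?_
        intro x hx hx'
        have h4 := (mem_ls.1 hx).2
        have h5 := ((h2 x).1 hx').2
        omega
      · intro x
        rw [List.mem_append, mem_ls, h2]
        constructor
        · rintro (⟨h4, h5⟩ | ⟨h4, h5⟩)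
          · exact ⟨h4, by omega⟩
          · exact ⟨h4, by omega⟩
        · rintro ⟨h4, h5⟩
          rcases Nat.lt_succ_iff_lt_or_eq.1 h5 with h6 | h6
          · exact Or.inr ⟨h4, h6⟩
          · exact Or.inl ⟨h4, h6⟩
      · rw [pp_append, ← h3]
        conv_lhs => unfold Ly
        rw [Nat.mod_eq_of_lt hj]
  obtain ⟨l, h1, h2, h3⟩ := h c (le_refl c)
  refine ⟨l, h1, fun x => ?_, h3⟩
  rw [h2]
  exact and_iff_left (col x).2

/-- removal of the terms which fix a vector -/
theorem pp_drop {V : T → Submodule ℂ E} {col : T → Fin c} {S S' : Finset T} (hS : S' ⊆ S) (i : ℕ)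
    (v : E) (hc : ∀ x y, (col x).val = i → (col y).val = i → Commute (pr (V x)) (pr (V y)))
    (hv : ∀ x ∈ S, x ∉ S' → pr (V x) v = v) : pp V (ls col S i) v = pp V (ls col S' i) v := by
  unfold ls
  generalize (Finset.univ : Finset T).toList = l
  induction l with
  | nil => rfl
  | cons x l ih =>
    by_cases hx : (col x).val = i
    · by_cases h1 : x ∈ S'
      · rw [List.filter_cons_of_pos (by simp [hS h1, hx]),
          List.filter_cons_of_pos (by simp [h1, hx]), pp_cons, pp_cons,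
          mul_apply_eq_comp, mul_apply_eq_comp, ih]
      · rw [List.filter_cons_of_neg (a := x) (p := fun x => decide (x ∈ S' ∧ (col x).val = i))
          (by simp [h1])]
        by_cases h2 : x ∈ S
        · rw [List.filter_cons_of_pos (by simp [h2, hx]), pp_cons,
            mul_apply_eq_comp, ih]
          have h3 : Commute (pp V (l.filter fun x => decide (x ∈ S' ∧ (col x).val = i)))
              (pr (V x)) := by
            refine pp_comm V _ _ fun y hy => ?_
            simp only [List.mem_filter, decide_eq_true_eq] at hy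
            exact hc y x hy.2.2 hx
          have h4 := congrArg (fun f : E →L[ℂ] E => f v) h3.eq
          simp only [mul_apply_eq_comp] at h4
          rw [← h4, hv x h2 h1]
        · rw [List.filter_cons_of_neg (by simp [h2])]
          exact ih
    · rw [List.filter_cons_of_neg (by simp [hx]), List.filter_cons_of_neg (by simp [hx])]
      exact ih

end

theorem Nb_mono {T : Type} [Fintype T] [DecidableEq T] (adj : T → T → Prop) (j : ℕ)
    (X : Finset T) : Nb adj j X ⊆ Nb adj (j + 1) X := by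
  conv_rhs => unfold Nb
  exact Finset.subset_union_left

theorem sub_Nb {T : Type} [Fintype T] [DecidableEq T] (adj : T → T → Prop) (j : ℕ)
    (X : Finset T) : X ⊆ Nb adj j X := by
  induction j with
  | zero => exact Finset.Subset.refl _
  | succ j ih => exact ih.trans (Nb_mono adj j X)

theorem adj_Nb {T : Type} [Fintype T] [DecidableEq T] {adj : T → T → Prop} {j : ℕ}
    {X : Finset T} {x y : T} (hx : x ∈ Nb adj j X) (h : adj x y) : y ∈ Nb adj (j + 1) X := by
  unfold Nb
  refine Finset.mem_union_right _ ?_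
  rw [Finset.mem_filter]
  exact ⟨Finset.mem_univ _, x, hx, h⟩

section

variable {E : Type} [NormedAddCommGroup E] [InnerProductSpace ℂ E] [FiniteDimensional ℂ E]
variable {T : Type} [Fintype T] [DecidableEq T] {c : ℕ}

/-- the light cone -/
theorem cone {V : T → Submodule ℂ E} {adj : T → T → Prop} {g : ℕ} (hL : Loc V adj g)
    {col : T → Fin c} (hcol : ∀ x y, x ≠ y → adj x y → col x ≠ col y) (B X : Finset T) (u : E)
    (hu : u ∈ G V B) (j : ℕ) : ∀ S : Finset T, Nb adj j X ⊆ S →
      Ly V col ((B ∪ X) ∩ S) j u = Ly V col ((B ∪ X) ∩ Nb adj j X) j u := by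
  induction j with
  | zero =>
    intro S _
    rfl
  | succ j ih =>
    intro S hS
    have h1 := ih S ((Nb_mono adj j X).trans hS)
    have h2 := ih (Nb adj (j + 1) X) (Nb_mono adj j X)
    unfold Ly
    rw [mul_apply_eq_comp, mul_apply_eq_comp, h1, h2]
    refine pp_drop (Finset.inter_subset_inter_left hS) _ _ ?_ ?_
    · intro x y hx hy
      by_cases hxy : x = y
      · rw [hxy]
      · refine hL.comm x y fun h => hcol x y hxy h (Fin.ext (hx.trans hy.symm))
    · intro x hx hx'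
      rw [Finset.mem_inter] at hx
      have h3 : x ∉ Nb adj (j + 1) X := fun h => hx' (Finset.mem_inter.2 ⟨hx.1, h⟩)
      have h4 : x ∈ B := by
        rcases Finset.mem_union.1 hx.1 with h | h
        · exact h
        · exact absurd (sub_Nb adj (j + 1) X h) h3
      have h5 : Commute (Ly V col ((B ∪ X) ∩ Nb adj j X) j) (pr (V x)) := by
        refine Ly_comm V col _ j _ fun y hy => ?_
        refine hL.comm y x fun h => h3 ?_
        exact adj_Nb (Finset.mem_inter.1 hy).2 h
      have h6 := congrArg (fun f : E →L[ℂ] E => f u) h5.eq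
      simp only [mul_apply_eq_comp] at h6
      rw [← h6, Submodule.starProjection_eq_self_iff.2 (mem_G.1 hu x h4)]

/-- repeated passes -/
theorem passes (h : StmDL) {V : T → Submodule ℂ E} {adj : T → T → Prop} {g : ℕ} {Δ : ℝ}
    (hL : Loc V adj g) (hΔ : 0 ≤ Δ) (hG : Gap V Δ) (col : T → Fin c) (A : Finset T) (k : ℕ)
    (φ : E) (hφ : φ ∈ (G V A)ᗮ) : Ly V col A (k * c) φ ∈ (G V A)ᗮ ∧
      ‖Ly V col A (k * c) φ‖ ≤ Real.sqrt ((g : ℝ) ^ 2 / ((g : ℝ) ^ 2 + Δ)) ^ k * ‖φ‖ := by
  obtain ⟨l, h1, h2, h3⟩ := pass V col A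
  induction k with
  | zero =>
    rw [Nat.zero_mul, pow_zero, one_mul]
    exact ⟨hφ, le_refl _⟩
  | succ k ih =>
    obtain ⟨i1, i2⟩ := ih
    rw [show (k + 1) * c = c + k * c by ring, Ly_add, mul_apply_eq_comp, h3]
    refine ⟨pp_perp V A l (fun x hx => (h2 x).1 hx) _ i1, ?_⟩
    have h4 := h E T V adj g Δ hL hΔ hG A l h1 h2 _ i1
    have h5 : ‖pp V l (Ly V col A (k * c) φ)‖ ≤
        Real.sqrt ((g : ℝ) ^ 2 / ((g : ℝ) ^ 2 + Δ)) * ‖Ly V col A (k * c) φ‖ := by
      rw [← Real.sqrt_sq (norm_nonneg (Ly V col A (k * c) φ)), ← Real.sqrt_mul (by positivity)]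
      exact Real.le_sqrt_of_sq_le h4
    refine h5.trans ?_
    rw [pow_succ' _ k, mul_assoc]
    exact mul_le_mul_of_nonneg_left i2 (Real.sqrt_nonneg _)

end

theorem contr_aux {E : Type} [NormedAddCommGroup E] [InnerProductSpace ℂ E] (K : E →L[ℂ] E)
    (hs : ∀ a b : E, ⟪K a, b⟫_ℂ = ⟪a, K b⟫_ℂ) (hK : ∀ y, ‖K y‖ ^ 2 ≤ (⟪K y, y⟫_ℂ).re) (a b : E) :
    ‖K a + (b - K b)‖ ^ 2 ≤ ‖a‖ ^ 2 + ‖b‖ ^ 2 := by
  set x := K a + (b - K b) with hx
  have h1 : ‖x‖ ^ 2 = (⟪a, K x⟫_ℂ + ⟪b, x - K x⟫_ℂ).re := by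
    have h2 : ⟪x, x⟫_ℂ = ⟪a, K x⟫_ℂ + ⟪b, x - K x⟫_ℂ := by
      conv_lhs => rw [hx]
      rw [inner_add_left, inner_sub_left, inner_sub_right, hs, hs]
    rw [← h2]
    exact (norm_sq_eq_re_inner (𝕜 := ℂ) x)
  have h3 : (⟪a, K x⟫_ℂ).re ≤ ‖a‖ * ‖K x‖ := re_inner_le_norm (𝕜 := ℂ) a (K x)
  have h4 : (⟪b, x - K x⟫_ℂ).re ≤ ‖b‖ * ‖x - K x‖ := re_inner_le_norm (𝕜 := ℂ) b (x - K x)
  have h5 : ‖x - K x‖ ^ 2 = ‖x‖ ^ 2 - 2 * (⟪K x, x⟫_ℂ).re + ‖K x‖ ^ 2 := by
    have h6 := norm_sub_sq (𝕜 := ℂ) x (K x)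
    rw [h6, ← hs]
    rfl
  have h7 := hK x
  rw [Complex.add_re] at h1
  nlinarith [sq_nonneg (‖a‖ - ‖K x‖), sq_nonneg (‖b‖ - ‖x - K x‖)]

theorem impl (h : StmDL) : StmImpl := by
  intro E _ _ _ T _ _ V adj g Δ hL hΔ hG c col hcol B X k
  have : CompleteSpace E := FiniteDimensional.complete ℂ E
  set M : E →L[ℂ] E := Ly V col ((B ∪ X) ∩ Nb adj (k * c) X) (k * c) with hM
  set N : E →L[ℂ] E := ContinuousLinearMap.adjoint M with hN
  have hMn : ∀ y, ‖M y‖ ≤ ‖y‖ := fun y => Ly_norm V col _ _ y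
  have hNM : ∀ a b : E, ⟪N a, b⟫_ℂ = ⟪a, M b⟫_ℂ := fun a b =>
    ContinuousLinearMap.adjoint_inner_left M b a
  have hMN : ∀ a b : E, ⟪M a, b⟫_ℂ = ⟪a, N b⟫_ℂ := fun a b =>
    (ContinuousLinearMap.adjoint_inner_right M a b).symm
  have hNn : ∀ y, ‖N y‖ ≤ ‖y‖ := by
    intro y
    have h1 : ‖N y‖ ^ 2 ≤ ‖y‖ * ‖N y‖ := by
      have h2 : ‖N y‖ ^ 2 = (⟪y, M (N y)⟫_ℂ).re := by
        rw [← hNM]
        exact norm_sq_eq_re_inner (𝕜 := ℂ) (N y)
      rw [h2]
      exact (re_inner_le_norm (𝕜 := ℂ) y (M (N y))).trans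
        (mul_le_mul_of_nonneg_left (hMn _) (norm_nonneg _))
    by_cases h0 : ‖N y‖ = 0
    · rw [h0]
      exact norm_nonneg _
    · have h3 : 0 < ‖N y‖ := lt_of_le_of_ne (norm_nonneg _) (Ne.symm h0)
      rw [sq] at h1
      exact le_of_mul_le_mul_right h1 h3
  -- a vector fixed by `M` is fixed by `N`
  have hfix : ∀ w, M w = w → N w = w := by
    intro w hw
    have h1 : ‖N w - w‖ ^ 2 ≤ 0 := by
      have h2 := norm_sub_sq (𝕜 := ℂ) (N w) w
      have h3 : RCLike.re ⟪N w, w⟫_ℂ = ‖w‖ ^ 2 := by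
        rw [hNM, hw]
        exact (norm_sq_eq_re_inner (𝕜 := ℂ) w).symm
      rw [h2, h3]
      have h4 := pow_le_pow_left₀ (norm_nonneg _) (hNn w) 2
      linarith
    have h5 : ‖N w - w‖ = 0 := by
      have := sq_nonneg ‖N w - w‖
      exact pow_eq_zero_iff (two_ne_zero) |>.1 (le_antisymm h1 this)
    exact sub_eq_zero.1 (norm_eq_zero.1 h5)
  have hsym : ∀ a b : E, ⟪(N * M) a, b⟫_ℂ = ⟪a, (N * M) b⟫_ℂ := by
    intro a b
    rw [mul_apply_eq_comp, mul_apply_eq_comp, hNM, hMN]
  refine ⟨N * M, hsym, contr_aux _ hsym ?_, ?_, ?_, ?_⟩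
  · intro y
    rw [mul_apply_eq_comp]
    have h1 : (⟪N (M y), y⟫_ℂ).re = ‖M y‖ ^ 2 := by
      rw [hNM]
      exact (norm_sq_eq_re_inner (𝕜 := ℂ) (M y)).symm
    rw [h1]
    exact pow_le_pow_left₀ (norm_nonneg _) (hNn _) 2
  · intro u hu
    rw [mul_apply_eq_comp]
    have h1 : M u = Ly V col (B ∪ X) (k * c) u := by
      have h2 := cone hL hcol B X u hu (k * c) Finset.univ (Finset.subset_univ _)
      rw [Finset.inter_univ] at h2
      exact h2.symm
    set p := pr (G V (B ∪ X)) u with hp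
    have hpm : p ∈ G V (B ∪ X) := Submodule.starProjection_apply_mem _ _
    have hMp : M p = p := by
      refine Ly_fix V col _ _ p fun x hx => ?_
      exact mem_G.1 hpm x (Finset.mem_inter.1 hx).1
    have hNp := hfix p hMp
    have h3 : p - N (M u) = N (p - M u) := by
      rw [map_sub, hNp]
    have hLp : Ly V col (B ∪ X) (k * c) p = p :=
      Ly_fix V col _ _ p fun x hx => mem_G.1 hpm x hx
    have h4 : p - M u = -(Ly V col (B ∪ X) (k * c) (u - p)) := by
      rw [map_sub, hLp, h1]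
      abel
    rw [h3, h4]
    refine (hNn _).trans ?_
    rw [norm_neg]
    have h5 : u - p ∈ (G V (B ∪ X))ᗮ := Submodule.sub_starProjection_mem_orthogonal _
    refine (passes h hL hΔ hG col (B ∪ X) k _ h5).2.trans ?_
    refine mul_le_mul_of_nonneg_left ?_ (by positivity)
    have h6 : ‖u‖ ^ 2 = ‖p‖ ^ 2 + ‖u - p‖ ^ 2 := by
      have h7 := norm_add_sq (𝕜 := ℂ) p (u - p)
      have h8 : ⟪p, u - p⟫_ℂ = 0 := (Submodule.mem_orthogonal _ _).1 h5 p hpm
      rw [add_sub_cancel, h8] at h7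
      simpa using h7
    refine abs_le_of_sq_le_sq' ?_ (norm_nonneg _) |>.2
    have := sq_nonneg ‖p‖
    linarith
  · intro S hS w hw
    rw [mul_apply_eq_comp]
    have h1 : M w = w := Ly_fix V col _ _ w fun x hx => mem_G.1 hw x (hS hx)
    rw [h1]
    exact hfix w h1
  · intro y hy
    have h1 : Commute M (pr (V y)) := by
      refine Ly_comm V col _ _ _ fun x hx => ?_
      refine hL.comm x y fun h2 => hy ?_
      exact adj_Nb (Finset.mem_inter.1 hx).2 h2
    have h2 : Commute N (pr (V y)) := by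
      have h3 := h1.star_star
      have h4 : star (pr (V y)) = pr (V y) := isSelfAdjoint_starProjection (V y)
      rw [h4, ContinuousLinearMap.star_eq_adjoint] at h3
      exact h3
    exact h2.mul_left h1

end Pool.Agent.N711.FF
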